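import Mathlib
import Pool.Agent.Lib.MP_492a9e_co.R.Few

set_option autoImplicit false

/-!
# Disjoint dijoins in digraphs that become core complete by additional arcs

`m` disjoint dijoins in digraphs all of whose directed cuts have at least `(t + 1) m` arcs, if
arcs `x i → v i` can be added such that Woodall's conjecture with weights is known for the larger
digraph `D'` (the class of the hand-in `CoreComplete`), all `v i` are reachable from a vertex `y`,
and there are at most `t` additional arcs, or not too many with `x i ∈ U` for all closed `U`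
without `y`. In particular for at most `t + 2` sink components or at most `t + 2` source
components: add arcs from all sink components but two to one of these two.

Proof. `U` is closed if no arc leaves it; `d(U)` is the number of arcs that enter `U`, `c(U)` the
number of those in `c`; `q = t + 1`.
(1) By Hoffman's circulation theorem there is an integral `φ ≤ q - 1` on the arcs with net inflow
`q m` for every `i` at `x i`, and `- q m n` at `y`: it suffices that
`q m #{i | x i ∈ U} ≤ (q - 1) d(U)` for closed `U` without `y`.
(2) Let `g a` be the residue of `φ a` modulo `q` in `{0, …, q - 1}`. Then `g ≥ φ`, and the net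
inflow of `g / q` is integral at every vertex; as flows have integral roundings, there is a set `c`
of arcs whose net inflow is that of `g / q` at every vertex. So `c(U) = g(U) / q` for closed `U`:
`c(U) ≥ m #{i | x i ∈ U}` if `y ∉ U`, and `d(U) - c(U) ≥ d(U) / q ≥ m` for all directed cuts.
(3) The arcs outside `c` contain `m` disjoint sets that meet all directed cuts of `D'`.
(4) All other directed cuts of `D` come from closed `U` with `x i ∈ U`, `v i ∉ U` for some `i`, so
`y ∉ U`. In the digraph with the arcs of `c` and many copies of all reversed arcs, at least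
`m #{i | x i ∈ U}` arcs enter a set `U` without `y`; by the theorem of Edmonds and Lovasz `c`
contains, for every `i`, `m` sets that enter all closed `U` with `x i ∈ U` and `y ∉ U`, all these
`n m` sets being disjoint. Unite them with the sets of (3).
-/

namespace Pool.Agent.Results.MP_492a9e_co.AddedArcs

/-- `y` is reachable from `x` along arcs -/
def Reach {V A : Type} (tl hd : A → V) (x y : V) : Prop :=
  Relation.ReflTransGen (fun x y => ∃ a, tl a = x ∧ hd a = y) x y

/-- `s` lies in a source component: it is reachable only from vertices that it reaches -/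
def InSource {V A : Type} (tl hd : A → V) (s : V) : Prop :=
  ∀ x, Reach tl hd x s → Reach tl hd s x

/-- `t` lies in a sink component: it reaches only vertices from which it is reachable -/
def InSink {V A : Type} (tl hd : A → V) (t : V) : Prop :=
  ∀ x, Reach tl hd t x → Reach tl hd x t

/-- every source component that reaches two different sink components reaches every sink component
that is reached from two different source components -/
def CoreComplete {V A : Type} (tl hd : A → V) : Prop :=
  ∀ s t : V, InSource tl hd s → InSink tl hd t →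
    (∃ t₁ t₂, InSink tl hd t₁ ∧ InSink tl hd t₂ ∧ Reach tl hd s t₁ ∧ Reach tl hd s t₂ ∧
      ¬ Reach tl hd t₁ t₂) →
    (∃ s₁ s₂, InSource tl hd s₁ ∧ InSource tl hd s₂ ∧ Reach tl hd s₁ t ∧ Reach tl hd s₂ t ∧
      ¬ Reach tl hd s₁ s₂) →
    Reach tl hd s t

/-- the arcs that enter `U` -/
def entering {V A : Type} (tl hd : A → V) (U : Set V) : Set A :=
  {a | tl a ∉ U ∧ hd a ∈ U}

/-- `U` is a nonempty proper set of vertices that no arc leaves; the directed cuts are the sets
`entering tl hd U` of these `U` -/
def Closed {V A : Type} (tl hd : A → V) (U : Set V) : Prop :=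
  U.Nonempty ∧ U ≠ Set.univ ∧ ∀ a, tl a ∈ U → hd a ∈ U

/-- arcs `x i → v i`, `i < n`, can be added such that the larger digraph is core complete; all
`v i` are reachable from one vertex `y`; and `n ≤ t` or, for all closed `U` without `y`,
`(t + 1) m` times the number of `i` with `x i ∈ U` is at most `t` times the number of arcs that
enter `U` -/
def Addable {V A : Type} (tl hd : A → V) (t m : ℕ) : Prop :=
  ∃ (n : ℕ) (x v : Fin n → V) (y : V), (∀ i, Reach tl hd y (v i)) ∧
    CoreComplete (Sum.elim tl x) (Sum.elim hd v) ∧
    (n ≤ t ∨ ∀ U : Set V, Closed tl hd U → y ∉ U →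
      (t + 1) * m * {i | x i ∈ U}.ncard ≤ t * (entering tl hd U).ncard)

theorem CoreComplete.core {V A : Type} [Fintype V] [Fintype A] {tl hd : A → V}
    (h : CoreComplete tl hd) : WoodArc.Core tl hd := by
  intro s t hs ht h1 h2
  refine h s t hs ht ?_ ?_
  · obtain ⟨t1, t2, a1, a2, a3⟩ := h1
    obtain ⟨u1, b1, c1⟩ := Wood3.re_snk tl hd t1
    obtain ⟨u2, b2, c2⟩ := Wood3.re_snk tl hd t2
    exact ⟨u1, u2, b1, b2, Relation.ReflTransGen.trans a1 c1, Relation.ReflTransGen.trans a2 c2,
      fun h => a3 ⟨u2, Relation.ReflTransGen.trans c1 h, c2⟩⟩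
  · obtain ⟨s1, s2, a1, a2, a3⟩ := h2
    obtain ⟨u1, b1, c1⟩ := Wood3.re_src tl hd s1
    obtain ⟨u2, b2, c2⟩ := Wood3.re_src tl hd s2
    exact ⟨u1, u2, b1, b2, Relation.ReflTransGen.trans c1 a1, Relation.ReflTransGen.trans c2 a2,
      fun h => a3 ⟨u1, c1, Relation.ReflTransGen.trans h c2⟩⟩

theorem Addable.dij {V A : Type} [Fintype V] [Fintype A] {tl hd : A → V} {t m : ℕ}
    (h : Addable tl hd t m) (hcut : WoodArc.CutGe tl hd ((t + 1) * m)) :
    WoodArc.Dij tl hd m := by
  obtain ⟨n, x, v, y, hv, hC, hn⟩ := h
  refine WoodArc.star tl hd n t m x v y hv hC.core hcut (hn.imp_right fun h U hU hy => ?_)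
  rcases U.eq_empty_or_nonempty with he | he
  · subst he
    simp
  · exact h U ⟨he, fun h1 => hy (h1 ▸ Set.mem_univ y), hU⟩ hy

/-- `D = (V, A)` is a finite digraph with parallel arcs allowed; the arc `a` goes from `tl a` to
`hd a`. Every directed cut has at least `(t + 1) m` arcs. Assume that arcs can be added as
described in `Addable` to `D` or to the reverse of `D`, or that there are at most `t + 2` sink
components (from every vertex one of `t + 2` given vertices can be reached), or at most `t + 2`
source components. Then `D` has `m` pairwise disjoint dijoins: disjoint sets `J i` of arcs which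
meet every directed cut. -/
theorem result {V A : Type} [Finite V] [Finite A] (tl hd : A → V) (t m : ℕ)
    (hD : Addable tl hd t m ∨ Addable hd tl t m ∨
      (∃ s : Fin (t + 2) → V, ∀ v, ∃ i, Reach tl hd v (s i)) ∨
      (∃ s : Fin (t + 2) → V, ∀ v, ∃ i, Reach tl hd (s i) v))
    (hcut : ∀ U, Closed tl hd U → (t + 1) * m ≤ (entering tl hd U).ncard) :
    ∃ J : Fin m → Set A, (∀ i j, i ≠ j → Disjoint (J i) (J j)) ∧
      ∀ i U, Closed tl hd U → (J i ∩ entering tl hd U).Nonempty := by
  have := Fintype.ofFinite V
  have := Fintype.ofFinite A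
  have hcut' : WoodArc.CutGe tl hd ((t + 1) * m) := fun U h1 h2 h3 => hcut U ⟨h1, h2, h3⟩
  have main : WoodArc.Dij tl hd m := by
    rcases hD with h | h | ⟨s, hs⟩ | ⟨s, hs⟩
    · exact h.dij hcut'
    · exact (h.dij hcut'.rev).rev
    · exact WoodArc.few_sinks tl hd t m s hs hcut'
    · exact WoodArc.few_sources tl hd t m s hs hcut'
  obtain ⟨J, h1, h2⟩ := main
  refine ⟨J, h1, fun i U hU => ?_⟩
  obtain ⟨a, ha, hb⟩ := h2 i U hU.1 hU.2.1 hU.2.2
  exact ⟨a, ha, hb⟩

end Pool.Agent.Results.MP_492a9e_co.AddedArcs
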