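import Mathlib
import Pool.Agent.Lib.MP_492a9e_co.FK.Main

set_option autoImplicit false

/-!
# A quarter of the minimum directed cut, and more in graphs of higher edge-connectivity

In every finite digraph whose nonempty directed cuts have at least `k` arcs there are `⌈k / 4⌉`
pairwise disjoint dijoins. If moreover all cuts have at least `2 q + 1` arcs, there are
`⌈q k / (2 q + 2)⌉` of them: `⌈k / 3⌉` if the underlying graph is 5-edge-connected, `⌈3 k / 8⌉` if it
is 7-edge-connected, and the fraction tends to `1 / 2`.

Proof. Put `m = ⌈q k / (2 q + 2)⌉`, so that `m - 1 < q k / (2 q + 2)`. (0) For `q = 1` the digraph may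
be assumed weakly connected, and its underlying graph `G` 3-edge-connected: contract an arc of a cut
with two arcs. So `G` is `(2 q + 1)`-edge-connected. Fix a root `r`; closed sets are the vertex sets
which no arc leaves, `d(U)` is the number of arcs entering `U`, `F0` is the family of the nonempty
closed sets without `r` and `F1` that of the proper closed sets with `r`.

(1) Closest vector. Give the arcs conductances `c`; `R` is the effective resistance and `P = c R`
(the probability that an arc lies in a random spanning tree). For every real vector `x` on the arcs
there is an integral vector `z` on the vertices whose value on every vertex set `S` differs from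
the net inflow of `x` by at most half of the sum of `P` over the cut of `S`: minimise the electrical
energy of the difference.

(2) It is enough to find `c` and `θ, Q ≥ 0` on the arcs with `P + θ + Q ≤ 1` (up to a small error),
`Q(U) > m - 1` on `F0` and `θ(W) > m - 1` on `F1`: take `x = 1 - P/2 - θ`. The value of `z` on every
vertex set is at most the number of entering arcs, so `z` is the net inflow of a set `B` of arcs; at
least `m` arcs of `B` enter every set of `F0`, and at least `m` arcs outside `B` enter every set of
`F1`. By the theorem of Edmonds on branchings these are the two halves of `m` disjoint dijoins.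

(3) By separation of convex sets, and by minimising the logarithm of the determinant of the
Laplacian plus a linear function, `c`, `θ`, `Q` exist if for every integral length `l ≥ 0` of the arcs
there are a spanning tree `T` and sets `B0`, `B1` of arcs, meeting the cuts of `F0` and of `F1`
respectively, with `l(T) + λ l(B0) + λ l(B1) ≤ l(A)`, for some `λ > m - 1`.

(4) For every `l` there are `B0` and a multiset of `|μ| ≥ l(B0)` members of `F0` such that every arc
`a` enters at most `l(a)` of them; the multiset may be taken laminar. The same for `F1`.

(5) Consider the components of the graph of the arcs of length at most `t`. Every component without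
`r` has at least `2 q + 2` arcs in its cut, except those with `2 q + 1` arcs; at most `q` arcs leave
such a component, or at most `q` arcs enter it. A component which at most `q` arcs leave is charged to
the set number `t + 1` of the laminar multiset above the head of one of the entering arcs, if there
is one for all of them, and otherwise to the difference of `l` and the number of sets entered.
Removing the charged components from a closed set leaves a closed set with at least that many fewer
entering arcs: what a component removes has at least `2 q + 1` arcs in its cut, at most `q` of them
leave it, and so at least `q + 1` arcs come from outside the closed set. So there are at most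
`l(A) - (k - 1) |μ|` such components for all `t` together. The components which at most `q` arcs enter
are the first ones for the reversed digraph. Adding up the sizes of the cuts of all components,
`(2 q + 2) l(T) + (k - 1)(|μ| + |ν|) + (2 q + 1) M ≤ 4 l(A)` for a shortest spanning tree `T`, where
`M` is the number of `t` with at least two components. As `k |μ| ≤ l(A)` and `k |ν| ≤ l(A)`, also
`(2 q + 2) l(T) + (q k - 1)(|μ| + |ν|) + (2 q + 1) M ≤ (2 q + 2) l(A)`.
-/

namespace Pool.Agent.Results.MP_492a9e_co.CeilFour

/-- `D = (V, A)` is a finite digraph with parallel arcs allowed; the arc `a` goes from `tl a` to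
`hd a`. A directed cut is the set of the arcs which enter a vertex set `U` that no arc leaves. Let
`q ≥ 1`, and let every nonempty directed cut have at least `k` arcs. If `q = 1`, or if every cut of
the underlying graph (the arcs with exactly one end in a vertex set `S` which is neither empty nor
everything) has at least `2 q + 1` arcs, then there are
`(q k + 2 q + 1) / (2 q + 2) = ⌈q k / (2 q + 2)⌉` pairwise disjoint sets of arcs, each of which meets
every nonempty directed cut. For `q = 1` this number is `⌈k / 4⌉`. -/
theorem result (V A : Type) [Fintype V] [Fintype A] (tl hd : A → V) (k q : ℕ) (hq : 1 ≤ q)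
    (hconn : q = 1 ∨ ∀ S : Set V, S.Nonempty → S ≠ Set.univ →
      2 * q + 1 ≤ {a | ¬(tl a ∈ S ↔ hd a ∈ S)}.ncard)
    (hcut : ∀ U : Set V, (∀ a, tl a ∈ U → hd a ∈ U) → (∃ a, tl a ∉ U ∧ hd a ∈ U) →
      k ≤ {a | tl a ∉ U ∧ hd a ∈ U}.ncard) :
    ∃ J : Fin ((q * k + 2 * q + 1) / (2 * q + 2)) → Set A,
      (∀ i j, i ≠ j → Disjoint (J i) (J j)) ∧
      ∀ i, ∀ U : Set V, (∀ a, tl a ∈ U → hd a ∈ U) → (∃ a, tl a ∉ U ∧ hd a ∈ U) →
        ∃ a ∈ J i, tl a ∉ U ∧ hd a ∈ U :=
  WoodF.ceil_weak V A tl hd k q hq hconn hcut

end Pool.Agent.Results.MP_492a9e_co.CeilFour
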