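import Mathlib
import Pool.Agent.Lib.MP_492a9e_co.Pen.Final

set_option autoImplicit false

/-!
# Packing dijoins: digraphs in which the core sources reach the core sinks

Woodall's conjecture, and its weighted form (conjectured by Edmonds and Giles, false for general
digraphs by an example of Schrijver), for all digraphs in which, inside every weak component,
every source component that reaches at least two sink components reaches every sink component
that is reached from at least two source components.

The class contains all digraphs in which every source component reaches every sink component
(Schrijver, Feofiloff and Younger), all digraphs with at most two source components or at most two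
sink components, and all digraphs in which every source component reaches one or all sink
components.

Proof. Call `U` a cut when it is a nonempty proper set of vertices closed under reachability `≤`,
a preorder; arcs of `S` may be replaced by arcs `(u, v)` with `u ≤ v`. Take a counterexample with
`|S|` minimal. Contracting the two sides of a tight cut stays in the class, so one of the sides of
a tight cut has no arcs; hence the head of every arc is a tight sink or its tail is a tight source.
If the head `x` of `(a, x)` is not a tight sink, the tail `u` of `(u, z)` is not a tight source,
`u ≤ x` and `a ≤ z`, then these two arcs can be replaced by the arc `(a, z)`. A tail is therefore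
never an open head, and the relations `y ≤ x`, `x` an open head, `y` not a source, can be deleted.

`k = 2`: a sink above one source only has no arc from that source. All cuts reduce to the cuts
inside the middle part `M` (no sources, no open heads) and to those that contain `M`; the arcs
from sources to sinks get a colouring compatible with two matchings, and the theorem of Edmonds
and Lovasz on branchings with given root sets extends it on both sides.

`k > 2`: two arcs may exchange their heads if all four relations hold (apply `k = 2` to the union
of their colour classes). Take a minimal counterexample with the largest number of arcs from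
sources below two sinks to sinks above two sources. Chains of exchanges show that again all cuts
reduce to two families; both sides are coloured by the theorem of Edmonds and Lovasz so that the
colours are balanced on these arcs, and exchanges match the two colourings.
-/

namespace Pool.Agent.Results.MP_492a9e_co.CoreComplete

/-- `y` is reachable from `x` along arcs -/
def Reach {V A : Type} (tl hd : A → V) (x y : V) : Prop :=
  Relation.ReflTransGen (fun x y => ∃ a, tl a = x ∧ hd a = y) x y

/-- `x` and `y` lie in the same weak component -/
def SameComponent {V A : Type} (tl hd : A → V) (x y : V) : Prop :=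
  Relation.ReflTransGen (fun x y => ∃ a, tl a = x ∧ hd a = y ∨ hd a = x ∧ tl a = y) x y

/-- `s` lies in a source component: it is reachable only from vertices that it reaches -/
def InSource {V A : Type} (tl hd : A → V) (s : V) : Prop :=
  ∀ x, Reach tl hd x s → Reach tl hd s x

/-- `t` lies in a sink component: it reaches only vertices from which it is reachable -/
def InSink {V A : Type} (tl hd : A → V) (t : V) : Prop :=
  ∀ x, Reach tl hd t x → Reach tl hd x t

/-- `D = (V, A)` is a finite digraph with parallel arcs allowed; the arc `a` goes from `tl a` to
`hd a`. A directed cut is the set of arcs which enter a set `U` of vertices that no arc leaves;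
as in the frozen statement all nonempty directed cuts are considered. `S` is a set of arcs (the
weights are `1` on `S` and `0` elsewhere; parallel arcs give all weights). Assume that every
source component which reaches two different sink components reaches every sink component of its
weak component that is reached from two different source components. If every directed cut
contains at least `k` arcs of `S`, then `S` contains `k` pairwise disjoint sets, each of which
meets every directed cut. -/
theorem result {V A : Type} [Finite V] [Finite A] (tl hd : A → V) (S : Set A) (k : ℕ)
    (hcore : ∀ s t : V, InSource tl hd s → InSink tl hd t → SameComponent tl hd s t →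
      (∃ t₁ t₂, InSink tl hd t₁ ∧ InSink tl hd t₂ ∧ Reach tl hd s t₁ ∧ Reach tl hd s t₂ ∧
        ¬ Reach tl hd t₁ t₂) →
      (∃ s₁ s₂, InSource tl hd s₁ ∧ InSource tl hd s₂ ∧ Reach tl hd s₁ t ∧ Reach tl hd s₂ t ∧
        ¬ Reach tl hd s₁ s₂) →
      Reach tl hd s t)
    (hcut : ∀ U : Set V, (∀ a, tl a ∈ U → hd a ∈ U) → (∃ a, tl a ∉ U ∧ hd a ∈ U) →
      k ≤ {a ∈ S | tl a ∉ U ∧ hd a ∈ U}.ncard) :
    ∃ J : Fin k → Set A, (∀ i, J i ⊆ S) ∧ (∀ i j, i ≠ j → Disjoint (J i) (J j)) ∧
      ∀ i, ∀ U : Set V, (∀ a, tl a ∈ U → hd a ∈ U) → (∃ a, tl a ∉ U ∧ hd a ∈ U) →
        ∃ a ∈ J i, tl a ∉ U ∧ hd a ∈ U := by
  have := Fintype.ofFinite V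
  have := Fintype.ofFinite A
  refine Wood3.pack_digraph tl hd S k ?_ hcut
  intro s t hs ht hst h1 h2
  refine hcore s t hs ht hst ?_ ?_
  · obtain ⟨t1, t2, a1, a2, a3⟩ := h1
    obtain ⟨u1, b1, c1⟩ := Wood3.re_snk tl hd t1
    obtain ⟨u2, b2, c2⟩ := Wood3.re_snk tl hd t2
    exact ⟨u1, u2, b1, b2, Relation.ReflTransGen.trans a1 c1, Relation.ReflTransGen.trans a2 c2,
      fun h => a3 ⟨u2, Relation.ReflTransGen.trans c1 h, c2⟩⟩
  · obtain ⟨s1, s2, a1, a2, a3⟩ := h2
    obtain ⟨u1, b1, c1⟩ := Wood3.re_src tl hd s1
    obtain ⟨u2, b2, c2⟩ := Wood3.re_src tl hd s2
    exact ⟨u1, u2, b1, b2, Relation.ReflTransGen.trans c1 a1, Relation.ReflTransGen.trans c2 a2,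
      fun h => a3 ⟨u1, c1, Relation.ReflTransGen.trans h c2⟩⟩

end Pool.Agent.Results.MP_492a9e_co.CoreComplete
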