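import Mathlib
import Pool.Agent.Lib.MP_492a9e_co.W.OddChains

set_option autoImplicit false

/-!
# Packing dijoins: digraphs whose odd strong components are covered by few chains

Half of Woodall's conjecture (`⌊k/2⌋` disjoint dijoins when every directed cut has at least `k`
arcs), also in the weighted form, for all digraphs in which few strong components are odd, or in
which the odd strong components are covered by few chains. A strong component is odd if it has an
odd number of arcs of `S` with exactly one end in it.

Proof (Eulerian completion with flexible roots). Contract the strong components, let `T` be the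
set of vertices of odd degree in `S`. Take a set `M` of disjoint pairs of vertices of `T`, at most
`2 m` vertices of `T` being left over, as additional edges, and join a new vertex `∞` by `2 m`
edges to the remaining vertices of `T` (and by the rest of these edges to some fixed vertex). All
degrees are even; take an Eulerian orientation. Colour an arc of `S` red if its orientation is the
one of the digraph and blue otherwise; the `m` edges from `∞` end in the roots `z₁, …, zₘ`. If
every set `U` that is closed under reachability, or whose complement is, satisfies
`2 m + (pairs separated by U) ≤ (arcs of S separated by U) + (edges from ∞ to U)`, then every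
directed cut entering `U` has at least `#{i : zᵢ ∉ U}` red and `#{i : zᵢ ∈ U}` blue arcs. By the
theorem of Edmonds and Lovasz on branchings with given root sets the red arcs contain disjoint sets
`R₁, …, Rₘ` such that `Rᵢ` meets all directed cuts entering a set that avoids `zᵢ`, and the blue
arcs contain disjoint sets `Bᵢ` which meet the cuts entering a set that contains `zᵢ`.

The pairs: consecutive elements in every chain. A set `U` separates at most one pair of each chain.
In a protected chain the first and the last element (and one more if the length is odd) are joined
to `∞`, and they outweigh the separated pair. The elements left over from the unprotected chains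
are the last elements of odd chains; they are paired arbitrarily.
-/

namespace Pool.Agent.Results.MP_492a9e_co.OddChains

/-- `y` is reachable from `x` along arcs -/
def Reach {V A : Type} (tl hd : A → V) (x y : V) : Prop :=
  Relation.ReflTransGen (fun x y => ∃ a, tl a = x ∧ hd a = y) x y

/-- the strong component of `v` -/
def strongComp {V A : Type} (tl hd : A → V) (v : V) : Set V :=
  {x | Reach tl hd v x ∧ Reach tl hd x v}

/-- the odd strong components: an odd number of arcs of `S` have exactly one end in `K` -/
def oddComps {V A : Type} (tl hd : A → V) (S : Set A) : Set (Set V) :=
  {K | (∃ v, K = strongComp tl hd v) ∧ Odd {a ∈ S | ¬ (tl a ∈ K ↔ hd a ∈ K)}.ncard}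

/-- the cost of a protected chain with `n` elements: `0, 1, 2, 3, 2, 3, 2, …` -/
def cost (n : ℕ) : ℕ := min n (2 + n % 2)

/-- `D = (V, A)` is a finite digraph with parallel arcs allowed; the arc `a` goes from `tl a` to
`hd a`. A directed cut is the set of arcs which enter a set `U` of vertices that no arc leaves;
as in the frozen statement all nonempty directed cuts are considered. `S` is a set of arcs (the
weights are `1` on `S` and `0` elsewhere; parallel arcs give all weights), and every directed cut
contains at least `k` arcs of `S`. The function `c` divides the odd strong components into chains: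
vertices in odd strong components with the same value of `c` are comparable. The chains with a
number in `P` are protected. If the sum of `cost (length)` over the protected chains is at most
`2 m`, and there are at most `k - 2 m` other chains (with numbers in `Q`), then `S` contains `m`
pairwise disjoint sets, each of which meets every directed cut.

`P` = all chains, every chain a single component: if `2 m ≤ k` and at most `2 m` strong components
are odd, there are `m` disjoint dijoins. `P` = all chains: if `2 m ≤ k` and the number `w` of
chains satisfies `3 w ≤ 2 m`, there are `m` disjoint dijoins. `Q` = all chains: if `2 m + w ≤ k`,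
there are `m` disjoint dijoins. -/
theorem result {V A : Type} [Finite V] [Finite A] (tl hd : A → V) (S : Set A) (k m : ℕ)
    (c : Set V → ℕ) (P Q : Finset ℕ)
    (hcover : ∀ K ∈ oddComps tl hd S, c K ∈ P ∨ c K ∈ Q)
    (hchain : ∀ K ∈ oddComps tl hd S, ∀ L ∈ oddComps tl hd S, c K = c L →
      ∀ x ∈ K, ∀ y ∈ L, Reach tl hd x y ∨ Reach tl hd y x)
    (hP : ∑ i ∈ P, cost {K ∈ oddComps tl hd S | c K = i}.ncard ≤ 2 * m)
    (hQ : 2 * m + Q.card ≤ k)
    (hcut : ∀ U : Set V, (∀ a, tl a ∈ U → hd a ∈ U) → (∃ a, tl a ∉ U ∧ hd a ∈ U) →
      k ≤ {a ∈ S | tl a ∉ U ∧ hd a ∈ U}.ncard) :
    ∃ J : Fin m → Set A, (∀ i, J i ⊆ S) ∧ (∀ i j, i ≠ j → Disjoint (J i) (J j)) ∧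
      ∀ i, ∀ U : Set V, (∀ a, tl a ∈ U → hd a ∈ U) → (∃ a, tl a ∉ U ∧ hd a ∈ U) →
        ∃ a ∈ J i, tl a ∉ U ∧ hd a ∈ U := by
  have := Fintype.ofFinite V
  have := Fintype.ofFinite A
  exact WoodW.pack_odd_chains tl hd S k m c P Q hcover hchain hP hQ hcut

end Pool.Agent.Results.MP_492a9e_co.OddChains
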